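import Pool.Agent.H69.LQ.Lib
import Pool.Agent.H69.LNN.Targets

/-!
# Row ZB of `lnn_modules` (helper73, MP_8f7db2_an): the part orthogonal to the profile
-/

set_option autoImplicit false

open MeasureTheory Metric Set
open scoped ENNReal
open Pool.Agent.H85.LK (E adm lam Ann)
open Pool.Agent.H69.LQ Pool.Agent.H69.LNN

namespace Pool.Agent.H73.LNN

theorem zb_lin (a b : ℝ) (F G : ℝ → ℝ) (hF : Continuous F) (hG : Continuous G) (u v : ℝ) :
    (∫ x in u..v, (a * F x + b * G x)) = a * (∫ x in u..v, F x) + b * ∫ x in u..v, G x := by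
  have i1 : IntervalIntegrable (fun x => a * F x) volume u v :=
    (continuous_const.mul hF).intervalIntegrable _ _
  have i2 : IntervalIntegrable (fun x => b * G x) volume u v :=
    (continuous_const.mul hG).intervalIntegrable _ _
  rw [intervalIntegral.integral_add i1 i2, intervalIntegral.integral_const_mul,
    intervalIntegral.integral_const_mul]

/-- the integral of a square, expanded -/
theorem zb_ls (w f p : ℝ → ℝ) (hw : Continuous w) (hf : Continuous f) (hp : Continuous p) (t : ℝ) :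
    ∫ r in (0 : ℝ)..1, w r * (f r - t * p r) ^ 2 =
      (∫ r in (0 : ℝ)..1, w r * f r ^ 2) - 2 * t * (∫ r in (0 : ℝ)..1, w r * (f r * p r)) +
        t ^ 2 * ∫ r in (0 : ℝ)..1, w r * p r ^ 2 := by
  have h1 : IntervalIntegrable (fun r => w r * f r ^ 2) volume 0 1 :=
    (hw.mul (hf.pow 2)).intervalIntegrable _ _
  have h2 : IntervalIntegrable (fun r => 2 * t * (w r * (f r * p r))) volume 0 1 :=
    (continuous_const.mul (hw.mul (hf.mul hp))).intervalIntegrable _ _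
  have h3 : IntervalIntegrable (fun r => t ^ 2 * (w r * p r ^ 2)) volume 0 1 :=
    (continuous_const.mul (hw.mul (hp.pow 2))).intervalIntegrable _ _
  rw [← intervalIntegral.integral_const_mul, ← intervalIntegral.integral_const_mul,
    ← intervalIntegral.integral_sub h1 h2, ← intervalIntegral.integral_add (h1.sub h2) h3]
  refine intervalIntegral.integral_congr fun r _ => ?_
  show w r * (f r - t * p r) ^ 2 = w r * f r ^ 2 - 2 * t * (w r * (f r * p r)) +
    t ^ 2 * (w r * p r ^ 2)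
  ring

/-- the part on `[0, 1]` -/
theorem zb_alg (n0 a0 b0 r1 T τ Z1 : ℝ) (hn : 0 < n0) (hT : T = n0⁻¹ * b0)
    (hZ : Z1 = a0 - 2 * τ * b0 + τ ^ 2 * n0) (hcs : 0 ≤ a0 - 2 * T * b0 + T ^ 2 * n0)
    (hr : 0 ≤ r1) :
    n0 * (T - τ) ^ 2 ≤ Z1 + r1 ∧ a0 + r1 - n0 * T ^ 2 ≤ Z1 + r1 := by
  have hb : b0 = n0 * T := by rw [hT]; field_simp
  subst hZ
  rw [hb] at hcs ⊢
  constructor
  · nlinarith
  · nlinarith [mul_nonneg hn.le (sq_nonneg (T - τ))]

/-- the outer part in the logarithmic variable -/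
theorem zb_out (g P : ℝ → ℝ) (hg : Continuous g) (hP : Continuous P) (τ α X B : ℝ) (hα : α ≤ X)
    (hα0 : α ≤ 0) (hXB : X ≤ B) (hB : 0 ≤ B) :
    (∫ x in α..0, (g x - τ * P x) ^ 2) + ∫ x in (0 : ℝ)..B, g x ^ 2 ≤
      2 * (∫ x in α..X, (g x - τ * P x) ^ 2) + 2 * (∫ x in X..B, g x ^ 2) +
        2 * τ ^ 2 * |∫ x in (0 : ℝ)..X, P x ^ 2| := by
  have hh : Continuous fun x => (g x - τ * P x) ^ 2 := (hg.sub (continuous_const.mul hP)).pow 2
  have hg2 : Continuous fun x => g x ^ 2 := hg.pow 2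
  have hP2 : Continuous fun x => P x ^ 2 := hP.pow 2
  have iI := fun (u v : ℝ) => hh.intervalIntegrable (μ := volume) u v
  have iG := fun (u v : ℝ) => hg2.intervalIntegrable (μ := volume) u v
  have iP := fun (u v : ℝ) => hP2.intervalIntegrable (μ := volume) u v
  have nI : ∀ u v, u ≤ v → 0 ≤ ∫ x in u..v, (g x - τ * P x) ^ 2 := fun u v h =>
    intervalIntegral.integral_nonneg h fun x _ => sq_nonneg _
  have nG : ∀ u v, u ≤ v → 0 ≤ ∫ x in u..v, g x ^ 2 := fun u v h =>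
    intervalIntegral.integral_nonneg h fun x _ => sq_nonneg _
  rcases le_total X 0 with hX | hX
  · have e1 : (∫ x in α..0, (g x - τ * P x) ^ 2) =
        (∫ x in α..X, (g x - τ * P x) ^ 2) + ∫ x in X..0, (g x - τ * P x) ^ 2 :=
      (intervalIntegral.integral_add_adjacent_intervals (iI _ _) (iI _ _)).symm
    have e2 : (∫ x in X..B, g x ^ 2) = (∫ x in X..0, g x ^ 2) + ∫ x in (0 : ℝ)..B, g x ^ 2 :=
      (intervalIntegral.integral_add_adjacent_intervals (iG _ _) (iG _ _)).symm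
    have e3 : (∫ x in X..0, (g x - τ * P x) ^ 2) ≤
        ∫ x in X..0, (2 * g x ^ 2 + 2 * τ ^ 2 * P x ^ 2) := by
      refine intervalIntegral.integral_mono_on hX (iI _ _)
        (((continuous_const.mul hg2).add (continuous_const.mul hP2)).intervalIntegrable _ _)
        fun x _ => ?_
      nlinarith [sq_nonneg (g x + τ * P x)]
    have e4 : (∫ x in X..0, (2 * g x ^ 2 + 2 * τ ^ 2 * P x ^ 2)) =
        2 * (∫ x in X..0, g x ^ 2) + 2 * τ ^ 2 * ∫ x in X..0, P x ^ 2 :=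
      zb_lin _ _ _ _ hg2 hP2 _ _
    have e5 : (∫ x in X..0, P x ^ 2) ≤ |∫ x in (0 : ℝ)..X, P x ^ 2| := by
      rw [intervalIntegral.integral_symm 0 X]
      exact neg_le_abs _
    have e6 : 2 * τ ^ 2 * (∫ x in X..0, P x ^ 2) ≤ 2 * τ ^ 2 * |∫ x in (0 : ℝ)..X, P x ^ 2| :=
      mul_le_mul_of_nonneg_left e5 (by positivity)
    have e7 := nI α X hα
    have e8 := nG 0 B hB
    rw [e1, e2]
    linarith
  · have e1 : (∫ x in α..X, (g x - τ * P x) ^ 2) =
        (∫ x in α..0, (g x - τ * P x) ^ 2) + ∫ x in (0 : ℝ)..X, (g x - τ * P x) ^ 2 :=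
      (intervalIntegral.integral_add_adjacent_intervals (iI _ _) (iI _ _)).symm
    have e2 : (∫ x in (0 : ℝ)..B, g x ^ 2) = (∫ x in (0 : ℝ)..X, g x ^ 2) + ∫ x in X..B, g x ^ 2 :=
      (intervalIntegral.integral_add_adjacent_intervals (iG _ _) (iG _ _)).symm
    have e3 : (∫ x in (0 : ℝ)..X, g x ^ 2) ≤
        ∫ x in (0 : ℝ)..X, (2 * (g x - τ * P x) ^ 2 + 2 * τ ^ 2 * P x ^ 2) := by
      refine intervalIntegral.integral_mono_on hX (iG _ _)
        (((continuous_const.mul hh).add (continuous_const.mul hP2)).intervalIntegrable _ _)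
        fun x _ => ?_
      nlinarith [sq_nonneg (g x - 2 * τ * P x)]
    have e4 : (∫ x in (0 : ℝ)..X, (2 * (g x - τ * P x) ^ 2 + 2 * τ ^ 2 * P x ^ 2)) =
        2 * (∫ x in (0 : ℝ)..X, (g x - τ * P x) ^ 2) +
          2 * τ ^ 2 * ∫ x in (0 : ℝ)..X, P x ^ 2 :=
      zb_lin _ _ _ _ hh hP2 _ _
    have e5 : (∫ x in (0 : ℝ)..X, P x ^ 2) ≤ |∫ x in (0 : ℝ)..X, P x ^ 2| := le_abs_self _
    have e6 : 2 * τ ^ 2 * (∫ x in (0 : ℝ)..X, P x ^ 2) ≤
        2 * τ ^ 2 * |∫ x in (0 : ℝ)..X, P x ^ 2| :=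
      mul_le_mul_of_nonneg_left e5 (by positivity)
    have e7 := nI α 0 hα0
    have e8 := nG X B hXB
    rw [e1, e2]
    linarith

/-- the integral of the square of the profile -/
theorem zb_prof (P : ℝ → ℝ) (q X : ℝ) (hq : ∀ x, |x| ≤ |X| → |P x| ≤ 2 * q * |x|) (hq0 : 0 ≤ q) :
    |∫ x in (0 : ℝ)..X, P x ^ 2| ≤ 4 * q ^ 2 * |X| ^ 2 * |X| := by
  have h := intervalIntegral.norm_integral_le_of_norm_le_const (a := (0 : ℝ)) (b := X)
    (f := fun x => P x ^ 2) (C := 4 * q ^ 2 * |X| ^ 2) (fun x hx => ?_)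
  · rw [Real.norm_eq_abs, sub_zero] at h
    exact h
  · have hx' : |x| ≤ |X| := by
      rcases le_total 0 X with h0 | h0
      · rw [uIoc_of_le h0] at hx
        rw [abs_of_pos hx.1, abs_of_nonneg h0]
        exact hx.2
      · rw [uIoc_of_ge h0] at hx
        rw [abs_of_nonpos h0, abs_of_nonpos hx.2]
        linarith [hx.1]
    have h1 := hq x hx'
    rw [Real.norm_eq_abs, abs_of_nonneg (sq_nonneg _), ← sq_abs (P x)]
    have h2 : |P x| ≤ 2 * q * |X| := h1.trans (mul_le_mul_of_nonneg_left hx' (by linarith))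
    calc |P x| ^ 2 ≤ (2 * q * |X|) ^ 2 := pow_le_pow_left₀ (abs_nonneg _) h2 2
      _ = 4 * q ^ 2 * |X| ^ 2 := by ring

/-- a function which vanishes at the left end -/
theorem zb_poin (h h' : ℝ → ℝ) (α X : ℝ) (hαX : α ≤ X) (hd : ∀ x, HasDerivAt h (h' x) x)
    (hc : Continuous h') (h0 : h α = 0) :
    ∫ x in α..X, h x ^ 2 ≤ (X - α) ^ 2 * ∫ x in α..X, h' x ^ 2 := by
  have hcont : Continuous h := continuous_iff_continuousAt.mpr fun x => (hd x).continuousAt
  have hint : ∀ u v, IntervalIntegrable h' volume u v := fun u v => hc.intervalIntegrable _ _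
  have hint2 : ∀ u v, IntervalIntegrable (fun x => h' x ^ 2) volume u v := fun u v =>
    (hc.pow 2).intervalIntegrable _ _
  set I : ℝ := ∫ x in α..X, h' x ^ 2 with hI
  have hI0 : 0 ≤ I := intervalIntegral.integral_nonneg hαX fun x _ => sq_nonneg _
  have key : ∀ x ∈ Icc α X, h x ^ 2 ≤ (X - α) * I := by
    intro x hx
    have e1 : h x = ∫ y in α..x, h' y := by
      have := intervalIntegral.integral_eq_sub_of_hasDerivAt (a := α) (b := x)
        (f := h) (f' := h') (fun y _ => hd y) (hint α x)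
      rw [this, h0, sub_zero]
    -- for every real t: 0 ≤ ∫ (h' - t)^2
    have e2 : h x ^ 2 ≤ (x - α) * ∫ y in α..x, h' y ^ 2 := by
      rcases eq_or_lt_of_le hx.1 with hax | hax
      · rw [← hax, h0]; simp
      · have hpos : 0 < x - α := sub_pos.mpr hax
        set t : ℝ := h x / (x - α) with ht
        have e3 : 0 ≤ ∫ y in α..x, (h' y - t) ^ 2 :=
          intervalIntegral.integral_nonneg hx.1 fun y _ => sq_nonneg _
        have e4 : (∫ y in α..x, (h' y - t) ^ 2) =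
            (∫ y in α..x, h' y ^ 2) - 2 * t * (∫ y in α..x, h' y) + t ^ 2 * (x - α) := by
          have i2 : IntervalIntegrable (fun y => 2 * t * h' y) volume α x :=
            (hint α x).const_mul _
          have i3 : IntervalIntegrable (fun _ : ℝ => t ^ 2) volume α x :=
            intervalIntegrable_const
          have e5 : (∫ _y in α..x, t ^ 2) = t ^ 2 * (x - α) := by
            rw [intervalIntegral.integral_const, smul_eq_mul, mul_comm]
          rw [← e5, ← intervalIntegral.integral_const_mul,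
            ← intervalIntegral.integral_sub (hint2 α x) i2,
            ← intervalIntegral.integral_add ((hint2 α x).sub i2) i3]
          refine intervalIntegral.integral_congr fun y _ => ?_
          show (h' y - t) ^ 2 = h' y ^ 2 - 2 * t * h' y + t ^ 2
          ring
        rw [e4, ← e1] at e3
        have e6 : h x = t * (x - α) := by rw [ht]; field_simp
        rw [e6] at e3 ⊢
        nlinarith [mul_nonneg hpos.le e3]
    have e7 : (∫ y in α..x, h' y ^ 2) ≤ I := by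
      rw [hI, ← intervalIntegral.integral_add_adjacent_intervals (hint2 α x) (hint2 x X)]
      have : 0 ≤ ∫ y in x..X, h' y ^ 2 :=
        intervalIntegral.integral_nonneg hx.2 fun y _ => sq_nonneg _
      linarith
    calc h x ^ 2 ≤ (x - α) * ∫ y in α..x, h' y ^ 2 := e2
      _ ≤ (x - α) * I := mul_le_mul_of_nonneg_left e7 (by linarith [hx.1])
      _ ≤ (X - α) * I := mul_le_mul_of_nonneg_right (by linarith [hx.2]) hI0
  calc ∫ x in α..X, h x ^ 2 ≤ ∫ _x in α..X, (X - α) * I :=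
        intervalIntegral.integral_mono_on hαX ((hcont.pow 2).intervalIntegrable _ _)
          intervalIntegrable_const key
    _ = (X - α) ^ 2 * I := by
        rw [intervalIntegral.integral_const, smul_eq_mul]
        ring

theorem zb_p1 (n K' s d I J : ℝ) (hn : 0 < n) (hd : 0 ≤ d) (hlen : n * d ≤ K')
    (hb : 2 * K' ^ 2 ≤ s * n) (hI : 0 ≤ I) (hJ : J ≤ d ^ 2 * I) : n * (2 * J) ≤ s * I := by
  have h1 : n * (2 * J) ≤ n * (2 * (d ^ 2 * I)) := by gcongr
  refine h1.trans ?_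
  have h2 : n * (2 * d ^ 2) ≤ s := by
    have h3 : (n * d) ^ 2 ≤ K' ^ 2 := pow_le_pow_left₀ (mul_nonneg hn.le hd) hlen 2
    have h4 : n * (n * (2 * d ^ 2)) ≤ n * s := by
      calc n * (n * (2 * d ^ 2)) = 2 * (n * d) ^ 2 := by ring
        _ ≤ 2 * K' ^ 2 := by linarith
        _ ≤ n * s := by linarith
    exact le_of_mul_le_mul_left h4 hn
  calc n * (2 * (d ^ 2 * I)) = n * (2 * d ^ 2) * I := by ring
    _ ≤ s * I := mul_le_mul_of_nonneg_right h2 hI

theorem zb_p2 (n s c I : ℝ) (hn : 0 < n) (hb : 2 ≤ s * c * n) (hI : 0 ≤ I) :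
    n * (2 * I) ≤ s * (c * n ^ 2 * I) := by
  have h1 : n * 2 ≤ s * c * n * n := by
    have := mul_le_mul_of_nonneg_right hb hn.le
    linarith
  calc n * (2 * I) = n * 2 * I := by ring
    _ ≤ s * c * n * n * I := mul_le_mul_of_nonneg_right h1 hI
    _ = s * (c * n ^ 2 * I) := by ring

theorem zb_p3 (n s K' q X τ J : ℝ) (hn : 0 < n) (hb : 8 * K' ≤ s * n) (hX : n * |X| ≤ K')
    (hJ : J ≤ 4 * |q| ^ 2 * |X| ^ 2 * |X|) :
    n * (2 * τ ^ 2 * J) ≤ s * (q ^ 2 / n) * (n * X) ^ 2 * τ ^ 2 := by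
  have h2 : n * (2 * τ ^ 2 * J) ≤ n * (2 * τ ^ 2 * (4 * |q| ^ 2 * |X| ^ 2 * |X|)) := by gcongr
  refine h2.trans ?_
  have h3 : 8 * |X| ≤ s := by
    have : n * (8 * |X|) ≤ n * s := by linarith
    exact le_of_mul_le_mul_left this hn
  rw [sq_abs, sq_abs]
  have h4 : s * (q ^ 2 / n) * (n * X) ^ 2 * τ ^ 2 = s * (q ^ 2 * X ^ 2 * n * τ ^ 2) := by
    field_simp
  rw [h4]
  calc n * (2 * τ ^ 2 * (4 * q ^ 2 * X ^ 2 * |X|))
      = 8 * |X| * (q ^ 2 * X ^ 2 * n * τ ^ 2) := by ring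
    _ ≤ s * (q ^ 2 * X ^ 2 * n * τ ^ 2) := mul_le_mul_of_nonneg_right h3 (by positivity)

theorem zb_p4 (n K' q x P : ℝ) (hK : 0 < K') (hn : 0 < n) (hx : n * |x| ≤ K')
    (h : |P - q * x| ≤ 1 / K' ^ 2 * |q| * |x| * (n * x) ^ 2) : |P| ≤ 2 * |q| * |x| := by
  have h5 : (n * x) ^ 2 ≤ K' ^ 2 := by
    rw [← sq_abs, abs_mul, abs_of_pos hn]
    exact pow_le_pow_left₀ (by positivity) hx 2
  have h7 : 1 / K' ^ 2 * (n * x) ^ 2 ≤ 1 := by
    rw [one_div, inv_mul_le_iff₀ (by positivity), mul_one]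
    exact h5
  have h6 : 1 / K' ^ 2 * |q| * |x| * (n * x) ^ 2 ≤ |q| * |x| := by
    calc 1 / K' ^ 2 * |q| * |x| * (n * x) ^ 2
        = (|q| * |x|) * (1 / K' ^ 2 * (n * x) ^ 2) := by ring
      _ ≤ (|q| * |x|) * 1 := mul_le_mul_of_nonneg_left h7 (by positivity)
      _ = |q| * |x| := mul_one _
  have h8 : |P| ≤ |P - q * x| + |q * x| := by
    have := abs_add_le (P - q * x) (q * x)
    rwa [sub_add_cancel] at this
  rw [abs_mul] at h8
  linarith

theorem zb_K (n K R : ℝ) (k : ℕ) (hn : n = k) (hK : 1 ≤ K) (hR : 0 < R)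
    (h : R ^ k ≤ Real.exp K + 1) : n * Real.log R ≤ K + 1 := by
  have h1 : Real.exp K + 1 ≤ Real.exp (K + 1) := by
    rw [Real.exp_add]
    have h2 : (2 : ℝ) ≤ Real.exp 1 := by
      have := Real.add_one_le_exp (1 : ℝ)
      linarith
    have h3 : (1 : ℝ) ≤ Real.exp K := Real.one_le_exp (by linarith)
    have h4 := mul_le_mul_of_nonneg_left h2 (Real.exp_pos K).le
    linarith
  have h4 : Real.log (R ^ k) ≤ K + 1 := by
    rw [Real.log_le_iff_le_exp (by positivity)]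
    exact h.trans h1
  rw [Real.log_pow] at h4
  rw [hn]
  exact h4

theorem pf_ZB (hPE : T_PE) (hCV : T_CV) (hNB : T_NB) (hPN : T_PN) (hPH : T_PH) :
    T_ZB := by
  intro K K₁ c s hK hK1 hc hs
  set K' : ℝ := K + K₁ + 1 with hK'
  have hK'1 : 1 ≤ K' := by linarith
  have hK'0 : 0 < K' := by linarith
  obtain ⟨N₁, hN13, hPN'⟩ := hPN K' (1 / K' ^ 2) hK'1 (by positivity)
  obtain ⟨N₂, hN2⟩ := exists_nat_ge (2 * K' ^ 2 / s + 2 / (s * c) + 8 * K' / s)
  refine ⟨max N₁ N₂, le_trans hN13 (le_max_left _ _), ?_⟩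
  intro N L τ R f f' hN hF hRF haR hRb hRN hfR hfa
  have hNN1 : N₁ ≤ N := (le_max_left _ _).trans hN
  have hNN2 : N₂ ≤ N := (le_max_right _ _).trans hN
  have hN3 : 3 ≤ N := hN13.trans hNN1
  have hNr : (3 : ℝ) ≤ N := by exact_mod_cast hN3
  have hN0 : (0 : ℝ) < N := by linarith
  have hbig : 2 * K' ^ 2 / s + 2 / (s * c) + 8 * K' / s ≤ N := hN2.trans (by exact_mod_cast hNN2)
  have t1 : 0 ≤ 2 * K' ^ 2 / s := by positivity
  have t2 : 0 ≤ 2 / (s * c) := by positivity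
  have t3 : 0 ≤ 8 * K' / s := by positivity
  have b1 : 2 * K' ^ 2 ≤ s * N := by
    have : 2 * K' ^ 2 / s ≤ N := by linarith
    rw [div_le_iff₀ hs] at this
    linarith
  have b2 : 2 ≤ s * c * N := by
    have : 2 / (s * c) ≤ N := by linarith
    rw [div_le_iff₀ (mul_pos hs hc)] at this
    linarith
  have b3 : 8 * K' ≤ s * N := by
    have : 8 * K' / s ≤ N := by linarith
    rw [div_le_iff₀ hs] at this
    linarith
  -- the profile
  obtain ⟨hph1, hph2, -⟩ := hPH N L (by omega)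
  have hpc : Continuous (ph N L 1) := (hph2 1).1.continuous
  have hpc' : Continuous (dph N L 1) := (hph2 1).2.continuous
  have hfc : Continuous f := continuous_iff_continuousAt.mpr fun x => (hRF.c1.1 x).continuousAt
  have hw : Continuous fun r : ℝ => r ^ (N - 3) := continuous_pow _
  obtain ⟨hPd, hPd', -, -, -, -⟩ := hPE N L hN3 hF
  obtain ⟨hNP, -, -⟩ := hNB N L hN3 hF
  -- the radii
  set a : ℝ := aa N K₁ with ha
  have ha0 : 0 < a := Real.exp_pos _
  have hla : Real.log a = -K₁ / N := by rw [ha]; unfold aa; exact Real.log_exp _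
  have ha1 : a ≤ 1 := by
    rw [ha]
    unfold aa
    rw [Real.exp_le_one_iff]
    exact div_nonpos_of_nonpos_of_nonneg (by linarith) hN0.le
  have hbb1 : 1 ≤ bb N := by
    unfold bb
    have : 0 ≤ 20 / Real.sqrt N := by positivity
    linarith
  have hR0 : 0 < R := ha0.trans_le haR
  set X : ℝ := Real.log R with hX
  set B : ℝ := Real.log (bb N) with hB
  set α : ℝ := -K₁ / N with hα
  have hαX : α ≤ X := by
    rw [← hla]
    exact Real.log_le_log ha0 haR
  have hXB : X ≤ B := Real.log_le_log hR0 hRb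
  have hB0 : 0 ≤ B := Real.log_nonneg hbb1
  have hα0 : α ≤ 0 := div_nonpos_of_nonpos_of_nonneg (by linarith) hN0.le
  have hNX : N * X ≤ K + 1 := zb_K N K R N rfl hK hR0 hRN
  have hNα : N * α = -K₁ := by rw [hα]; field_simp
  have hNXabs : N * |X| ≤ K' := by
    have h1 : N * |X| = |N * X| := by rw [abs_mul, abs_of_pos hN0]
    rw [h1, abs_le]
    constructor
    · have := mul_le_mul_of_nonneg_left hαX hN0.le
      rw [hNα] at this
      linarith
    · linarith
  -- the functions in the logarithmic variable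
  obtain ⟨hgd, hgc', -, -⟩ := hCV N L 1 1 f f' hN3 one_pos le_rfl hRF.c1
  have hgc : Continuous (gx N f) := continuous_iff_continuousAt.mpr fun x => (hgd x).continuousAt
  have hPc : Continuous (Px N L) := continuous_iff_continuousAt.mpr fun x => (hPd x).continuousAt
  have hPc' : Continuous (Px' N L) :=
    continuous_iff_continuousAt.mpr fun x => (hPd' x).continuousAt
  have hC1 : C1 (fun r => f r - τ * ph N L 1 r) (fun r => f' r - τ * dph N L 1 r) :=
    ⟨fun x => (hRF.c1.1 x).sub ((hph1 1 x).const_mul τ),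
      hRF.c1.2.sub (continuous_const.mul hpc')⟩
  have hgsub : ∀ x, gx N (fun r => f r - τ * ph N L 1 r) x = gx N f x - τ * Px N L x := by
    intro x
    unfold Px gx
    ring
  obtain ⟨-, -, -, hcv1⟩ := hCV N L a 1 _ _ hN3 ha0 ha1 hC1
  obtain ⟨-, -, -, hcv2⟩ := hCV N L 1 (bb N) f f' hN3 one_pos hbb1 hRF.c1
  rw [Real.log_one] at hcv1 hcv2
  rw [hla] at hcv1
  simp only [hgsub] at hcv1
  -- the splitting of `Z`
  have hsq : Continuous fun r : ℝ => r ^ (N - 3) * (f r - τ * ph N L 1 r) ^ 2 :=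
    hw.mul ((hfc.sub (continuous_const.mul hpc)).pow 2)
  have hsplit : (∫ r in (0 : ℝ)..1, r ^ (N - 3) * (f r - τ * ph N L 1 r) ^ 2) =
      (∫ r in (0 : ℝ)..a, r ^ (N - 3) * (f r - τ * ph N L 1 r) ^ 2) +
        ∫ r in a..1, r ^ (N - 3) * (f r - τ * ph N L 1 r) ^ 2 :=
    (intervalIntegral.integral_add_adjacent_intervals (hsq.intervalIntegrable _ _)
      (hsq.intervalIntegrable _ _)).symm
  have hMr : Mr N f = (∫ r in (0 : ℝ)..1, r ^ (N - 3) * f r ^ 2) +
      ∫ r in (1 : ℝ)..bb N, r ^ (N - 3) * f r ^ 2 :=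
    (intervalIntegral.integral_add_adjacent_intervals
      ((hw.mul (hfc.pow 2)).intervalIntegrable _ _)
      ((hw.mul (hfc.pow 2)).intervalIntegrable _ _)).symm
  set r1 : ℝ := ∫ r in (1 : ℝ)..bb N, r ^ (N - 3) * f r ^ 2 with hr1
  have hr10 : 0 ≤ r1 := intervalIntegral.integral_nonneg hbb1 fun r hr =>
    mul_nonneg (pow_nonneg (by linarith [hr.1]) _) (sq_nonneg _)
  have hexp := fun t => zb_ls (fun r : ℝ => r ^ (N - 3)) f (ph N L 1) hw hfc hpc t
  have hcs : 0 ≤ (∫ r in (0 : ℝ)..1, r ^ (N - 3) * f r ^ 2) -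
      2 * Tr N L f * (∫ r in (0 : ℝ)..1, r ^ (N - 3) * (f r * ph N L 1 r)) +
        Tr N L f ^ 2 * NP N L := by
    have h1 : 0 ≤ ∫ r in (0 : ℝ)..1, r ^ (N - 3) * (f r - Tr N L f * ph N L 1 r) ^ 2 :=
      intervalIntegral.integral_nonneg zero_le_one fun r hr =>
        mul_nonneg (pow_nonneg hr.1 _) (sq_nonneg _)
    rw [hexp] at h1
    exact h1
  obtain ⟨hz1, hz2⟩ := zb_alg (NP N L) _ _ r1 (Tr N L f) τ _ hNP rfl (hexp τ) hcs hr10
  refine ⟨(∫ r in (0 : ℝ)..1, r ^ (N - 3) * (f r - τ * ph N L 1 r) ^ 2) + r1, hz1, ?_, ?_⟩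
  · unfold Wr
    rw [hMr]
    exact hz2
  -- the bound of `Z`
  have ho := zb_out (gx N f) (Px N L) hgc hPc τ α X B hαX hα0 hXB hB0
  have hZ : (∫ r in (0 : ℝ)..1, r ^ (N - 3) * (f r - τ * ph N L 1 r) ^ 2) + r1 ≤
      (∫ r in (0 : ℝ)..a, r ^ (N - 3) * (f r - τ * ph N L 1 r) ^ 2) +
        (2 * (∫ x in α..X, (gx N f x - τ * Px N L x) ^ 2) + 2 * (∫ x in X..B, gx N f x ^ 2) +
        2 * τ ^ 2 * |∫ x in (0 : ℝ)..X, Px N L x ^ 2|) := by
    rw [hsplit, hcv1, hcv2]
    linarith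
  -- Poincare
  have hga : gx N f α - τ * Px N L α = 0 := by
    have he : Real.exp α = a := rfl
    unfold Px gx
    rw [he, hfa]
    ring
  have hpo := zb_poin (fun x => gx N f x - τ * Px N L x)
    (fun x => gx' N f f' x - τ * Px' N L x) α X hαX
    (fun x => (hgd x).sub ((hPd x).const_mul τ)) (hgc'.sub (continuous_const.mul hPc')) hga
  have hlen : N * (X - α) ≤ K' := by
    rw [mul_sub, hNα]
    linarith
  have hI10 : 0 ≤ ∫ x in α..X, (gx' N f f' x - τ * Px' N L x) ^ 2 :=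
    intervalIntegral.integral_nonneg hαX fun x _ => sq_nonneg _
  have hI20 : 0 ≤ ∫ x in X..B, gx N f x ^ 2 :=
    intervalIntegral.integral_nonneg hXB fun x _ => sq_nonneg _
  have p1 := zb_p1 N K' s (X - α) _ _ hN0 (sub_nonneg.mpr hαX) hlen b1 hI10 hpo
  have p2 := zb_p2 N s c _ hN0 b2 hI20
  have p3 := zb_p3 N s K' (dph N L 1 1) X τ _ hN0 b3 hNXabs
    (zb_prof (Px N L) |dph N L 1 1| X (fun x hx => by
      have h2 : N * |x| ≤ K' := (mul_le_mul_of_nonneg_left hx hN0.le).trans hNXabs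
      have h3 : |x| ≤ K' / N := by
        rw [le_div_iff₀ hN0]
        linarith
      exact zb_p4 N K' _ x _ hK'0 hN0 h2 (hPN' N L x hNN1 hF h3).2) (abs_nonneg _))
  calc N * ((∫ r in (0 : ℝ)..1, r ^ (N - 3) * (f r - τ * ph N L 1 r) ^ 2) + r1)
      ≤ N * ((∫ r in (0 : ℝ)..a, r ^ (N - 3) * (f r - τ * ph N L 1 r) ^ 2) +
        (2 * (∫ x in α..X, (gx N f x - τ * Px N L x) ^ 2) + 2 * (∫ x in X..B, gx N f x ^ 2) +
        2 * τ ^ 2 * |∫ x in (0 : ℝ)..X, Px N L x ^ 2|)) := mul_le_mul_of_nonneg_left hZ hN0.le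
    _ = N * (∫ r in (0 : ℝ)..a, r ^ (N - 3) * (f r - τ * ph N L 1 r) ^ 2) +
        N * (2 * ∫ x in α..X, (gx N f x - τ * Px N L x) ^ 2) +
        N * (2 * ∫ x in X..B, gx N f x ^ 2) +
        N * (2 * τ ^ 2 * |∫ x in (0 : ℝ)..X, Px N L x ^ 2|) := by ring
    _ ≤ _ := by linarith

end Pool.Agent.H73.LNN
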